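import Mathlib
import Pool.Agent.R825.FibUni4

/-!
# MP_dbd06c_co

The coefficient sequence of `F_s` is unimodal for every `s`, and log-concave for every `s ≥ 4`.
-/

open Polynomial

namespace Pool.Agent.Results.MP_dbd06c_co.FibUnimodal

/-- The polynomials of the problem: `F 0 = F 1 = 1` and
`F (s+2) = (1 + q + 2 q²) F (s+1) + q³ F s`. -/
noncomputable def F : ℕ → ℤ[X]
  | 0 => 1
  | 1 => 1
  | (s + 2) => (1 + X + 2 * X ^ 2) * F (s + 1) + X ^ 3 * F s

/-- The coefficient sequence `a_0, …, a_d`, `d = deg p`, is unimodal: it is nondecreasing up to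
some index `m ≤ d` and nonincreasing from `m` on. -/
def Unimodal (p : ℤ[X]) : Prop :=
  ∃ m ≤ p.natDegree, (∀ i j, i ≤ j → j ≤ m → p.coeff i ≤ p.coeff j) ∧
    (∀ i j, m ≤ i → i ≤ j → j ≤ p.natDegree → p.coeff j ≤ p.coeff i)

lemma map_F (s : ℕ) : (F s).map (Int.castRingHom ℝ) = Pool.Agent.R825.Fib.FR s := by
  induction s using Nat.twoStepInduction with
  | zero => simp [F, Pool.Agent.R825.Fib.FR]
  | one => simp [F, Pool.Agent.R825.Fib.FR]
  | more n h0 h1 =>
    have e : Pool.Agent.R825.Fib.FR (n + 2) = Pool.Agent.R825.Fib.P * Pool.Agent.R825.Fib.FR (n + 1)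
      + X ^ 3 * Pool.Agent.R825.Fib.FR n := rfl
    rw [e, ← h0, ← h1]
    simp [F, Pool.Agent.R825.Fib.P]

lemma coeff_F (s k : ℕ) : (Pool.Agent.R825.Fib.FR s).coeff k = ((F s).coeff k : ℝ) := by
  rw [← map_F, coeff_map]; simp

lemma natDegree_F (s : ℕ) : (Pool.Agent.R825.Fib.FR s).natDegree = (F s).natDegree := by
  rw [← map_F, natDegree_map_eq_of_injective]
  exact Int.cast_injective

theorem result :
    (∀ s : ℕ, Unimodal (F s)) ∧
    (∀ s : ℕ, 4 ≤ s → ∀ k, (F s).coeff k * (F s).coeff (k + 2) ≤ (F s).coeff (k + 1) ^ 2) := by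
  constructor
  · intro s
    obtain ⟨m, h1, h2, h3⟩ := Pool.Agent.R825.Fib.main_unimodal s
    refine ⟨m, by rwa [natDegree_F] at h1, ?_, ?_⟩
    · intro i j hij hj
      have := h2 i j hij hj
      rw [coeff_F, coeff_F] at this
      exact_mod_cast this
    · intro i j hi hij _
      have := h3 i j hi hij
      rw [coeff_F, coeff_F] at this
      exact_mod_cast this
  · intro s hs k
    have h := (Pool.Agent.R825.Fib.main_R s hs).2 k 0 0
    simp only [coeff_F, zero_add] at h
    have h' : (((F s).coeff (k + 1 + 1) * (F s).coeff k : ℤ) : ℝ) ≤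
        (((F s).coeff (k + 1) * (F s).coeff (k + 1) : ℤ) : ℝ) := by
      push_cast; exact h
    have h'' : (F s).coeff (k + 1 + 1) * (F s).coeff k ≤
        (F s).coeff (k + 1) * (F s).coeff (k + 1) := by exact_mod_cast h'
    rw [show k + 2 = k + 1 + 1 by ring]
    nlinarith

end Pool.Agent.Results.MP_dbd06c_co.FibUnimodal
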